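import Pool.Agent.TH125.Mtg.Zc

/-!
# Zariski closures of groups which contain transvections
-/

set_option linter.unusedSectionVars false

namespace Pool.Agent.TH125.Mtg

open Module Finset Function Pool.Agent.TH118.ZC Pool.Agent.TH125.Squ

section curve

variable {K : Type} [Field K] [CharZero K] {T : Type} [AddCommGroup T] [Module K T] {ι : Type}
  [Fintype ι] (b : Basis ι K T)

/-- The restriction of a polynomial to a parabola. -/
theorem exists_curve (p : MvPolynomial (ι × ι) K) (x y z : End K T) :
    ∃ q : Polynomial K, ∀ t : K, q.eval t = ev b p (x + t • y + t ^ 2 • z) := by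
  induction p using MvPolynomial.induction_on with
  | C a => exact ⟨Polynomial.C a, fun t => by rw [ev_C, Polynomial.eval_C]⟩
  | add p p' hp hp' =>
    obtain ⟨q, hq⟩ := hp
    obtain ⟨q', hq'⟩ := hp'
    exact ⟨q + q', fun t => by rw [ev_add, Polynomial.eval_add, hq, hq']⟩
  | mul_X p ij hp =>
    obtain ⟨q, hq⟩ := hp
    refine ⟨q * (Polynomial.C (b.repr (x (b ij.2)) ij.1) +
      Polynomial.C (b.repr (y (b ij.2)) ij.1) * Polynomial.X +
      Polynomial.C (b.repr (z (b ij.2)) ij.1) * Polynomial.X ^ 2), fun t => ?_⟩
    rw [ev_mul, ev_X, Polynomial.eval_mul, Polynomial.eval_add, Polynomial.eval_add,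
      Polynomial.eval_mul, Polynomial.eval_mul,
      Polynomial.eval_C, Polynomial.eval_C, Polynomial.eval_C, Polynomial.eval_X,
      Polynomial.eval_pow, Polynomial.eval_X, hq, LinearMap.add_apply, LinearMap.add_apply,
      LinearMap.smul_apply, LinearMap.smul_apply, map_add, map_add, map_smul, map_smul,
      Finsupp.add_apply, Finsupp.add_apply, Finsupp.smul_apply, Finsupp.smul_apply,
      smul_eq_mul, smul_eq_mul]
    ring

/-- Parabolas which meet the closure infinitely often are contained in it. -/
theorem curve_subset {A : Set (End K T)} {x y z : End K T} {S : Set K} (hS : S.Infinite)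
    (h : ∀ t ∈ S, x + t • y + t ^ 2 • z ∈ zariskiClosure b A) (t : K) :
    x + t • y + t ^ 2 • z ∈ zariskiClosure b A := by
  intro p hp
  obtain ⟨q, hq⟩ := exists_curve b p x y z
  have h1 : q = 0 := by
    refine Polynomial.eq_zero_of_infinite_isRoot q (hS.mono fun t ht => ?_)
    change q.eval t = 0
    rw [hq]
    exact h t ht p hp
  rw [← hq, h1, Polynomial.eval_zero]

end curve

section trans

variable {K : Type} [Field K] [CharZero K] {V E : Type} [AddCommGroup V] [Module K V]
  [AddCommGroup E] [Module K E] {ι : Type} [Fintype ι] (b : Basis ι K (V × E))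
  {B : V →ₗ[K] V →ₗ[K] K} {A : Set (End K (V × E))}

/-- The operator `s` on the first factor. -/
def lft (E : Type) [AddCommGroup E] [Module K E] (s : End K V) : End K (V × E) :=
  s.prodMap (1 : End K E)

theorem lft_mul (s t : End K V) : lft E (s * t) = lft E s * lft E t := rfl

theorem lft_one : lft E (1 : End K V) = 1 := LinearMap.prodMap_one

/-- The vectors with transvections in the closure. -/
def DD (b : Basis ι K (V × E)) (B : V →ₗ[K] V →ₗ[K] K) (A : Set (End K (V × E))) : Set V :=
  {u | ∀ t : K, lft E (tv B u t) ∈ zariskiClosure b A}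

theorem DD_smul {u : V} (hu : u ∈ DD b B A) (c : K) : c • u ∈ DD b B A := by
  intro t
  have h1 := hu (c * c * t)
  have h2 : tv B (c • u) t = tv B u (c * c * t) := by
    apply LinearMap.ext
    intro x
    rw [tv_apply, tv_apply, map_smul, LinearMap.smul_apply, smul_smul, smul_eq_mul]
    congr 2
    ring
  rwa [h2]

variable (halt : ∀ v, B v v = 0) (hA : ∀ x ∈ A, ∀ y ∈ A, x * y ∈ A)

include halt hA in
theorem DD_add {u w : V} (hu : u ∈ DD b B A) (hw : w ∈ DD b B A) (h : B w u ≠ 0) (s : K) :
    u + s • w ∈ DD b B A := by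
  intro t
  set r : K := s / B w u with hr
  have hrs : r * B w u = s := by rw [hr]; field_simp
  have h1 : tv B (u + s • w) t = tv B w r * tv B u t * tv B w (-r) := by
    apply LinearMap.ext
    intro x
    rw [Module.End.mul_apply, Module.End.mul_apply, tv_apply, tv_apply B w (-r), tv_apply B u,
      tv_apply B w r]
    simp only [map_add, map_smul, LinearMap.add_apply, LinearMap.smul_apply, smul_eq_mul, halt,
      skew halt u w, ← hrs]
    module
  rw [h1, lft_mul, lft_mul]
  exact zc_mul b hA (zc_mul b hA (hw r) (hu t)) (hw (-r))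

include halt hA in
theorem DD_limit {u w : V} {S : Set K} (hS : S.Infinite)
    (h : ∀ s ∈ S, u + s • w ∈ DD b B A) (s : K) : u + s • w ∈ DD b B A := by
  intro t
  have h1 : ∀ s : K, lft E (tv B (u + s • w) t) = lft E (1 + t • (B u).smulRight u) +
      s • (t • ((B u).smulRight w + (B w).smulRight u)).prodMap (0 : End K E) +
      s ^ 2 • (t • (B w).smulRight w).prodMap (0 : End K E) := by
    intro s
    apply LinearMap.ext
    rintro ⟨x, y⟩
    apply Prod.ext
    · simp only [lft, tv, LinearMap.prodMap_apply, LinearMap.add_apply, LinearMap.smul_apply,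
        Prod.fst_add, Prod.smul_fst, Module.End.one_apply, LinearMap.smulRight_apply, map_add,
        map_smul, smul_eq_mul]
      module
    · simp only [lft, LinearMap.prodMap_apply, LinearMap.add_apply, LinearMap.smul_apply,
        Prod.snd_add, Prod.smul_snd, Module.End.one_apply, LinearMap.zero_apply, smul_zero,
        add_zero]
  rw [h1]
  refine curve_subset b hS (fun s hs => ?_) s
  rw [← h1]
  exact h s hs t

variable {D₀ : Set V}

include halt hA in
theorem DD_path (hD : D₀ ⊆ DD b B A) {f c : V} (h : Conn B D₀ f c) (hf : f ∈ D₀) :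
    ∀ u ∈ DD b B A, B u f ≠ 0 → ∀ r : K, u + r • c ∈ DD b B A := by
  induction h using Relation.ReflTransGen.head_induction_on with
  | refl =>
    intro u hu huf r
    exact DD_add b halt hA hu (hD hf) (by rw [skew halt]; exact neg_ne_zero.2 huf) r
  | @head f g h1 _ ih =>
    intro u hu huf r
    have h2 : ∀ s ∈ {s : K | s ≠ -B u g / B f g}, (u + r • c) + s • f ∈ DD b B A := by
      intro s hs
      have h3 := DD_add b halt hA hu (hD hf) (by rw [skew halt]; exact neg_ne_zero.2 huf) s
      have h4 := ih h1.1 _ h3 (by
        rw [map_add, map_smul, LinearMap.add_apply, LinearMap.smul_apply, smul_eq_mul]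
        intro h5
        apply hs
        rw [eq_div_iff h1.2]
        linear_combination h5) r
      have h5 : (u + r • c) + s • f = (u + s • f) + r • c := by abel
      rwa [h5]
    have h3 := DD_limit b halt hA (u := u + r • c) (w := f)
      (S := {s : K | s ≠ -B u g / B f g}) (by
        have h4 : {s : K | s ≠ -B u g / B f g} = {-B u g / B f g}ᶜ := by
          ext s
          simp
        rw [h4]
        exact (Set.finite_singleton _).infinite_compl) h2 0
    rwa [zero_smul, add_zero] at h3

include halt hA in
/-- The blocks. -/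
theorem DD_blk (hD : D₀ ⊆ DD b B A) (hnd : ∀ u, (∀ v, B u v = 0) → u = 0)
    (hspan : Submodule.span K D₀ = ⊤) {a : V} (ha : a ∈ D₀) :
    (blkOf B D₀ a : Set V) ⊆ DD b B A := by
  have hsk := skew halt
  have hstep : ∀ c, Conn B D₀ a c → ∀ r : K, ∀ u ∈ blkOf B D₀ a, u ∈ DD b B A →
      u + r • c ∈ DD b B A := by
    intro c hc r u hu huD
    by_cases hu0 : u = 0
    · rw [hu0, zero_add]
      exact DD_smul b (hD (Conn.mem hc ha)) r
    obtain ⟨f, hf, huf⟩ : ∃ f ∈ D₀, B u f ≠ 0 := by
      by_contra hcon
      push Not at hcon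
      apply hu0
      apply hnd
      intro v
      have hv : v ∈ Submodule.span K D₀ := by rw [hspan]; exact Submodule.mem_top
      have h1 : Submodule.span K D₀ ≤ LinearMap.ker (B u) :=
        Submodule.span_le.2 fun f hf => hcon f hf
      exact h1 hv
    have haf : Conn B D₀ a f := by
      by_contra hcon
      exact huf (blk_orth hsk hf hcon hu (self_mem f))
    exact DD_path b halt hA hD ((Conn.symm' hsk haf ha).trans' hc) hf u huD huf r
  have hall : ∀ x ∈ blkOf B D₀ a, ∀ r : K, ∀ u ∈ blkOf B D₀ a, u ∈ DD b B A →
      u + r • x ∈ DD b B A := by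
    intro x hx
    rw [blkOf] at hx
    induction hx using Submodule.span_induction with
    | mem x hx => exact hstep x hx
    | zero =>
      intro r u _ huD
      rwa [smul_zero, add_zero]
    | add x y hx hy h1 h2 =>
      intro r u hu huD
      rw [smul_add, ← add_assoc]
      exact h2 r _ (Submodule.add_mem _ hu (Submodule.smul_mem _ r hx)) (h1 r u hu huD)
    | smul c x hx h1 =>
      intro r u hu huD
      rw [smul_smul]
      exact h1 _ u hu huD
  intro x hx
  have h0 : (0 : V) ∈ DD b B A := by
    have := DD_smul b (hD ha) 0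
    rwa [zero_smul] at this
  have h1 := hall x hx 1 0 (Submodule.zero_mem _) h0
  rwa [one_smul, zero_add] at h1

end trans

end Pool.Agent.TH125.Mtg
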