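import Pool.Agent.TH125.Mtg.Main

/-!
# Isometries in the Zariski closure
-/

set_option linter.unusedSectionVars false

namespace Pool.Agent.TH125.Mtg

open Module Finset Function Pool.Agent.TH118.ZC Pool.Agent.TH125.Squ

section defs

variable {K : Type} [Field K] {V : Type} [AddCommGroup V] [Module K V] {Γ : Type} [Group Γ]

/-- The isometries of the form `B`. -/
def isometries (B : V →ₗ[K] V →ₗ[K] K) : Set (End K V) := {t | ∀ u v, B (t u) (t v) = B u v}

/-- The operators which preserve the subspaces `U i`. -/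
def preserving {r : ℕ} (U : Fin r → Submodule K V) : Set (End K V) :=
  {t | ∀ i, ∀ x ∈ U i, t x ∈ U i}

/-- The operators which commute with all elements of a subgroup of finite index. -/
def potentialCommutant (ρ : Representation K Γ V) : Set (End K V) :=
  {f | ∃ Δ : Subgroup Γ, Δ.FiniteIndex ∧ ∀ g ∈ Δ, f * ρ g = ρ g * f}

/-- `V` is the direct sum of the nonzero subspaces `U i`, which are pairwise orthogonal. -/
structure IsOrthDecomposition (B : V →ₗ[K] V →ₗ[K] K) {r : ℕ} (U : Fin r → Submodule K V) :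
    Prop where
  nonzero : ∀ i, U i ≠ ⊥
  indep : iSupIndep U
  sup : iSup U = ⊤
  orth : ∀ i j, i ≠ j → ∀ x ∈ U i, ∀ y ∈ U j, B x y = 0

end defs

variable {K : Type} [Field K] [CharZero K] {V E : Type} [AddCommGroup V] [Module K V]
  [AddCommGroup E] [Module K E] [FiniteDimensional K V] {ι κ : Type} [Fintype ι] [Fintype κ]
  (bV : Basis ι K V) (bE : Basis κ K E) {B : V →ₗ[K] V →ₗ[K] K} {Γ : Type} [Group Γ]
  {ρ : Representation K Γ V} {σ : Representation K Γ E}

/-- **The blocks.** -/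
theorem exists_blocks (halt : ∀ v, B v v = 0) (hnd : ∀ u, (∀ v, B u v = 0) → u = 0)
    {μ : Γ → K} (hμ : ∀ g, μ g ≠ 0) (hB : ∀ g u v, B (ρ g u) (ρ g v) = μ g * B u v)
    (hspan : Submodule.span K (vanishingClasses B ρ σ) = ⊤) :
    ∃ (r : ℕ) (U : Fin r → Submodule K V) (Δ₀ : Subgroup Γ), Δ₀.FiniteIndex ∧
      IsOrthDecomposition B U ∧ (∀ g ∈ Δ₀, ρ g ∈ preserving U) ∧
      ∀ Δ : Subgroup Γ, Δ.FiniteIndex → ∀ t ∈ isometries B, t ∈ preserving U →
        t.prodMap 1 ∈ zariskiClosure (bV.prod bE) (onSum (images ρ σ Δ)) := by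
  classical
  have hsk := skew halt
  set D : Set V := vanishingClasses B ρ σ \ {0} with hD
  have hinj : ∀ g v, ρ g v = 0 → v = 0 := by
    intro g v h
    have h1 : ρ g⁻¹ (ρ g v) = v := by
      rw [← Module.End.mul_apply, ← map_mul, inv_mul_cancel, map_one]
      rfl
    rw [← h1, h, map_zero]
  have hvan : ∀ g, ∀ δ ∈ D, ρ g δ ∈ D :=
    fun g δ hδ => ⟨vanish_act hμ hB g hδ.1, fun h0 => hδ.2 (hinj g δ h0)⟩
  have hspan' : Submodule.span K D = ⊤ := by
    rw [hD, Submodule.span_sdiff_singleton_zero, hspan]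
  obtain ⟨s⟩ := exists_BD (ρ := ρ) hsk hnd hμ hB hvan hspan'
  have horth : ∀ i j, i ≠ j → ∀ x ∈ s.U i, ∀ y ∈ s.U j, B x y = 0 := fun i j hij x hx y hy =>
    blks_orth hsk (s.mem i) (s.mem j) (fun h => hij (s.inj h)) hx hy
  refine ⟨s.r, s.U, s.sub, s.fin, ⟨?_, s.indep, s.sup, horth⟩, fun g hg i x hx =>
    s.stab g hg i x hx, ?_⟩
  · intro i h0
    obtain ⟨a, ha, h⟩ := s.mem i
    have ha' : a ∈ s.U i := by
      rw [h]
      exact self_mem a
    rw [h0, Submodule.mem_bot] at ha'
    exact ha.2 ha'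
  · intro Δ hΔ t ht htU
    have hAmul := images_mul (ρ := ρ) (σ := σ) Δ
    have hone := subset_zc (bV.prod bE) _ (one_mem' (ρ := ρ) (σ := σ) Δ)
    have hU : ∀ i, (s.U i : Set V) ⊆ DD (bV.prod bE) B (onSum (images ρ σ Δ)) := by
      intro i
      obtain ⟨a, ha, h⟩ := s.mem i
      rw [h]
      exact DD_blk (bV.prod bE) halt hAmul
        (fun d hd => vanish_DD bV bE halt hΔ hd.1) hnd hspan' ha
    exact blocks_mem (bV.prod bE) halt hnd hAmul hone hU s.indep s.sup horth ht htU

/-- The restriction to the first factor. -/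
theorem back_fst {Δ : Subgroup Γ} {t : End K V}
    (h : t.prodMap (1 : End K E) ∈ zariskiClosure (bV.prod bE) (onSum (images ρ σ Δ))) :
    t ∈ zariskiClosure bV (ρ '' Δ) := by
  intro p hpA
  have h1 : ∀ (x : End K V) (y : End K E), ev (bV.prod bE)
      (MvPolynomial.rename (fun ij : ι × ι => ((Sum.inl ij.1 : ι ⊕ κ), (Sum.inl ij.2 : ι ⊕ κ))) p)
      (x.prodMap y) = ev bV p x := by
    intro x y
    rw [ev, ev, MvPolynomial.eval_rename]
    congr 1
    congr 1
    funext ij
    simp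
  have h2 := h
    (MvPolynomial.rename (fun ij : ι × ι => ((Sum.inl ij.1 : ι ⊕ κ), (Sum.inl ij.2 : ι ⊕ κ))) p)
    (by
      rintro _ ⟨_, ⟨g, hg, rfl⟩, rfl⟩
      rw [h1]
      exact hpA _ ⟨g, hg, rfl⟩)
  rwa [h1] at h2

/-- Linear conditions pass to the closure. -/
theorem linear_closed {A : Set (End K V)} {x : End K V} (hx : x ∈ zariskiClosure bV A)
    (l : V →ₗ[K] K) (v : V) (l' : V →ₗ[K] K) (v' : V)
    (h : ∀ a ∈ A, l (a v) = l' (a v')) : l (x v) = l' (x v') := by
  have h1 := hx (lp bV l v - lp bV l' v') (by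
    intro a ha
    have h2 : ev bV (lp bV l v - lp bV l' v') a = ev bV (lp bV l v) a - ev bV (lp bV l' v') a := by
      simp only [ev, map_sub]
    rw [h2, ev_lp, ev_lp, h a ha, sub_self])
  have h2 : ev bV (lp bV l v - lp bV l' v') x = ev bV (lp bV l v) x - ev bV (lp bV l' v') x := by
    simp only [ev, map_sub]
  rw [h2, ev_lp, ev_lp] at h1
  exact sub_eq_zero.1 h1

/-- Elements of the closure of a group preserve its stable subspaces. -/
theorem closure_preserving {A : Set (End K V)} {x : End K V} (hx : x ∈ zariskiClosure bV A)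
    {U : Submodule K V} (h : ∀ a ∈ A, ∀ u ∈ U, a u ∈ U) {u : V} (hu : u ∈ U) : x u ∈ U := by
  by_contra hcon
  obtain ⟨l, hl, hl'⟩ := Submodule.exists_le_ker_of_notMem hcon
  have h1 := linear_closed bV hx l u 0 0 (by
    intro a ha
    rw [LinearMap.zero_apply]
    exact hl' (h a ha u hu))
  rw [LinearMap.zero_apply] at h1
  exact hl h1

/-- Elements of the closure commute with the operators which commute with the set. -/
theorem closure_commute {A : Set (End K V)} {x : End K V} (hx : x ∈ zariskiClosure bV A)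
    {f : End K V} (h : ∀ a ∈ A, f * a = a * f) : f * x = x * f := by
  apply LinearMap.ext
  intro v
  refine bV.repr.injective (Finsupp.ext fun i => ?_)
  exact linear_closed bV hx (bV.coord i ∘ₗ f) v (bV.coord i) (f v) fun a ha => by
    have h1 := LinearMap.congr_fun (h a ha) v
    rw [Module.End.mul_apply, Module.End.mul_apply] at h1
    rw [LinearMap.comp_apply, h1]

/-- The projections to the blocks are in the potential commutant. -/
theorem preserving_of_commute {r : ℕ} {U : Fin r → Submodule K V} (hind : iSupIndep U)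
    (hsup : iSup U = ⊤) {Δ₀ : Subgroup Γ} (hΔ₀ : Δ₀.FiniteIndex)
    (hst : ∀ g ∈ Δ₀, ρ g ∈ preserving U) {x : End K V}
    (hx : ∀ f ∈ potentialCommutant ρ, f * x = x * f) : x ∈ preserving U := by
  intro i u hu
  have hcompl : IsCompl (U i) (⨆ j, ⨆ _ : j ≠ i, U j) := by
    refine ⟨hind i, ?_⟩
    rw [codisjoint_iff, eq_top_iff, ← hsup]
    refine iSup_le fun j => ?_
    by_cases hj : j = i
    · rw [hj]
      exact le_sup_left
    · exact le_sup_of_le_right (le_iSup₂_of_le j hj le_rfl)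
  let f : End K V := (U i).subtype ∘ₗ prj hcompl
  have h1 : ∀ g ∈ Δ₀, f * ρ g = ρ g * f := by
    intro g hg
    apply LinearMap.ext
    intro v
    obtain ⟨v1, hv1, v2, hv2, rfl⟩ := exists_dec hcompl v
    have h2 : ρ g v2 ∈ (⨆ j, ⨆ _ : j ≠ i, U j : Submodule K V) := by
      have h3 : (⨆ j, ⨆ _ : j ≠ i, U j : Submodule K V) ≤
          (⨆ j, ⨆ _ : j ≠ i, U j : Submodule K V).comap (ρ g) :=
        iSup₂_le fun j hj z hz => Submodule.mem_comap.2
          ((le_iSup₂_of_le (f := fun j (_ : j ≠ i) => U j) j hj le_rfl)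
            (hst g hg j z hz))
      exact h3 hv2
    have h4 : ∀ w ∈ U i, f w = w := fun w hw =>
      congrArg Subtype.val (prj_left hcompl (⟨w, hw⟩ : U i))
    have h5 : ∀ w ∈ (⨆ j, ⨆ _ : j ≠ i, U j : Submodule K V), f w = 0 := fun w hw => by
      change ((prj hcompl w : U i) : V) = 0
      rw [prj_right hcompl hw, Submodule.coe_zero]
    rw [Module.End.mul_apply, Module.End.mul_apply, map_add, map_add f, map_add f,
      h4 _ (hst g hg i v1 hv1), h4 _ hv1, h5 _ h2, h5 _ hv2, add_zero, add_zero]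
  have h2 := hx f ⟨Δ₀, hΔ₀, h1⟩
  have h3 := LinearMap.congr_fun h2 u
  rw [Module.End.mul_apply, Module.End.mul_apply] at h3
  have h4 : f u = u := congrArg Subtype.val (prj_left hcompl (⟨u, hu⟩ : U i))
  rw [h4] at h3
  change f (x u) = x u at h3
  rw [← h3]
  exact (prj hcompl (x u)).2

end Pool.Agent.TH125.Mtg
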