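import Pool.Agent.TH125.Mtg.Spl

/-!
# Zariski closures: vanishing classes span
-/

set_option linter.unusedSectionVars false

namespace Pool.Agent.TH125.Mtg

open Module Finset Function Pool.Agent.TH118.ZC Pool.Agent.TH125.Squ

section defs

variable {K : Type} [Field K] {V E : Type} [AddCommGroup V] [Module K V] [AddCommGroup E]
  [Module K E] {Γ : Type} [Group Γ]

/-- The pair `(x, y)` of endomorphisms of `V` and `E`: `x` is a similitude of `B` and `y` multiplies
`e` by the multiplier of `x`. -/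
def IsSim (B : V →ₗ[K] V →ₗ[K] K) (e : E) (p : End K V × End K E) : Prop :=
  ∃ c : K, c ≠ 0 ∧ (∀ u v, B (p.1 u) (p.1 v) = c * B u v) ∧ p.2 e = c • e

/-- The vanishing classes: the vectors `d` such that some element of the group acts on `V` by
`v ↦ v + c B(d, v) d`, `c ≠ 0`, and trivially on `E`. -/
def vanishingClasses (B : V →ₗ[K] V →ₗ[K] K) (ρ : Representation K Γ V)
    (σ : Representation K Γ E) : Set V :=
  {d | ∃ g : Γ, ∃ c : K, c ≠ 0 ∧ (∀ v, ρ g v = v + (c * B d v) • d) ∧ σ g = 1}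

/-- The operators of `V × E` given by the pairs in `𝒢`. -/
def onSum (𝒢 : Set (End K V × End K E)) : Set (End K (V × E)) :=
  (fun p => p.1.prodMap p.2) '' 𝒢

/-- The pairs given by the elements of a subgroup `Δ` of `Γ`. -/
def images (ρ : Representation K Γ V) (σ : Representation K Γ E) (Δ : Subgroup Γ) :
    Set (End K V × End K E) := (fun g => (ρ g, σ g)) '' (Δ : Set Γ)

end defs

variable {K : Type} [Field K] [CharZero K] {V E : Type} [AddCommGroup V] [Module K V]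
  [AddCommGroup E] [Module K E] [FiniteDimensional K V] {ι κ : Type} [Fintype ι] [Fintype κ]
  (bV : Basis ι K V) (bE : Basis κ K E) {B : V →ₗ[K] V →ₗ[K] K} {Γ : Type} [Group Γ]
  {ρ : Representation K Γ V} {σ : Representation K Γ E} {e : E}
  {𝒢 : Set (End K V × End K E)}

theorem images_mul (Δ : Subgroup Γ) : ∀ x ∈ onSum (images ρ σ Δ), ∀ y ∈ onSum (images ρ σ Δ),
    x * y ∈ onSum (images ρ σ Δ) := by
  rintro _ ⟨_, ⟨g, hg, rfl⟩, rfl⟩ _ ⟨_, ⟨g', hg', rfl⟩, rfl⟩
  refine ⟨_, ⟨g * g', Δ.mul_mem hg hg', rfl⟩, ?_⟩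
  simp only [map_mul]
  rfl

theorem act_mem {Δ : Subgroup Γ} {g : Γ} (hg : g ∈ Δ) :
    (ρ g).prodMap (σ g) ∈ onSum (images ρ σ Δ) := ⟨_, ⟨g, hg, rfl⟩, rfl⟩

theorem one_mem' (Δ : Subgroup Γ) : (1 : End K (V × E)) ∈ onSum (images ρ σ Δ) := by
  have h1 := act_mem (ρ := ρ) (σ := σ) Δ.one_mem
  rw [map_one, map_one] at h1
  exact h1

/-- powers of transvections -/
theorem pow_act (halt : ∀ v, B v v = 0) {g : Γ} {c : K} {d : V}
    (h : ∀ v, ρ g v = v + (c * B d v) • d) (n : ℕ) (v : V) :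
    ρ (g ^ n) v = v + ((n * c) * B d v) • d := by
  induction n generalizing v with
  | zero => rw [pow_zero, map_one, Nat.cast_zero, zero_mul, zero_mul, zero_smul, add_zero]; rfl
  | succ n ih =>
    rw [pow_succ, map_mul, Module.End.mul_apply, h, ih, map_add, map_smul, halt, smul_zero,
      add_zero]
    push_cast
    module

/-- the vanishing classes -/
theorem vanish_DD (halt : ∀ v, B v v = 0) {Δ : Subgroup Γ} (hΔ : Δ.FiniteIndex) :
    vanishingClasses B ρ σ ⊆ DD (bV.prod bE) B (onSum (images ρ σ Δ)) := by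
  rintro d ⟨g, c, hc, hg, hσ⟩ t
  obtain ⟨m, hm, hgm⟩ := Pool.Agent.TH125.Gal.exists_pow hΔ g
  have h1 : ∀ t : K, lft E (tv B d t) = lft E 1 + t • ((B d).smulRight d).prodMap (0 : End K E) := by
    intro t
    apply LinearMap.ext
    rintro ⟨x, y⟩
    apply Prod.ext
    · simp only [lft, tv, LinearMap.prodMap_apply, LinearMap.add_apply, LinearMap.smul_apply,
        Prod.fst_add, Prod.smul_fst, Module.End.one_apply]
    · simp only [lft, LinearMap.prodMap_apply, LinearMap.add_apply, LinearMap.smul_apply,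
        Prod.snd_add, Prod.smul_snd, Module.End.one_apply, LinearMap.zero_apply, smul_zero,
        add_zero]
  rw [h1]
  refine line_subset (bV.prod bE) (S := Set.range fun k : ℕ => ((m * k : ℕ) : K) * c) ?_ ?_ t
  · refine Set.infinite_range_of_injective fun k k' h => ?_
    have h2 := mul_right_cancel₀ hc h
    exact Nat.eq_of_mul_eq_mul_left hm (Nat.cast_injective h2)
  · rintro _ ⟨k, rfl⟩
    rw [← h1]
    have h2 := subset_zc (bV.prod bE) _ (act_mem (ρ := ρ) (σ := σ) (Δ.pow_mem hgm k))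
    have h3 : (ρ ((g ^ m) ^ k)).prodMap (σ ((g ^ m) ^ k)) =
        lft E (tv B d (((m * k : ℕ) : K) * c)) := by
      have h4 : σ ((g ^ m) ^ k) = 1 := by rw [map_pow, map_pow, hσ, one_pow, one_pow]
      have h5 : ρ ((g ^ m) ^ k) = tv B d (((m * k : ℕ) : K) * c) := by
        apply LinearMap.ext
        intro v
        rw [← pow_mul, pow_act halt hg, tv_apply]
      rw [h4, h5]
      rfl
    rwa [h3] at h2

theorem vanish_act {μ : Γ → K} (hμ : ∀ g, μ g ≠ 0)
    (hB : ∀ g u v, B (ρ g u) (ρ g v) = μ g * B u v) (h : Γ) {d : V}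
    (hd : d ∈ vanishingClasses B ρ σ) : ρ h d ∈ vanishingClasses B ρ σ := by
  obtain ⟨g, c, hc, hg, hσ⟩ := hd
  refine ⟨h * g * h⁻¹, c * (μ h)⁻¹, mul_ne_zero hc (inv_ne_zero (hμ h)), fun v => ?_, ?_⟩
  · have h1 : ρ h (ρ h⁻¹ v) = v := by
      rw [← Module.End.mul_apply, ← map_mul, mul_inv_cancel, map_one]
      rfl
    have h2 : B (ρ h d) v = μ h * B d (ρ h⁻¹ v) := by
      rw [← hB, h1]
    rw [map_mul, map_mul, Module.End.mul_apply, Module.End.mul_apply, hg, map_add, map_smul, h1,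
      h2]
    congr 2
    have := hμ h
    field_simp
  · rw [map_mul, map_mul, hσ, mul_one, ← map_mul, mul_inv_cancel, map_one]

/-- **The essential direction.** -/
theorem forward [IsAlgClosed K] (halt : ∀ v, B v v = 0) (hnd : ∀ u, (∀ v, B u v = 0) → u = 0)
    (he : e ≠ 0) (hgrp : ∀ g, IsSim B e (ρ g, σ g)) (h𝒢 : ∀ p ∈ 𝒢, IsSim B e p)
    (hspan : Submodule.span K (vanishingClasses B ρ σ) = ⊤)
    (hE : ∀ Δ : Subgroup Γ, Δ.FiniteIndex → Prod.snd '' 𝒢 ⊆ zariskiClosure bE (σ '' Δ))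
    (hEnd : ∀ f : End K V, (∃ Δ : Subgroup Γ, Δ.FiniteIndex ∧ ∀ g ∈ Δ, f * ρ g = ρ g * f) →
      ∀ p ∈ 𝒢, f * p.1 = p.1 * f) (Δ : Subgroup Γ) (hΔ : Δ.FiniteIndex) :
    onSum 𝒢 ⊆ zariskiClosure (bV.prod bE) (onSum (images ρ σ Δ)) := by
  classical
  choose μ hμ hB hμe using hgrp
  have hsk := skew halt
  have hvan : ∀ g, ∀ δ ∈ vanishingClasses B ρ σ, ρ g δ ∈ vanishingClasses B ρ σ :=
    fun g δ hδ => vanish_act hμ hB g hδ
  obtain ⟨s⟩ := exists_BD (ρ := ρ) hsk hnd hμ hB hvan hspan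
  have horth : ∀ i j, i ≠ j → ∀ x ∈ s.U i, ∀ y ∈ s.U j, B x y = 0 := fun i j hij x hx y hy =>
    blks_orth hsk (s.mem i) (s.mem j) (fun h => hij (s.inj h)) hx hy
  have hsfin := s.fin
  set Δ' : Subgroup Γ := Δ ⊓ s.sub with hΔ'
  have hΔ'f : Δ'.FiniteIndex := inferInstance
  set A := onSum (images ρ σ Δ') with hA
  have hAmul := images_mul (ρ := ρ) (σ := σ) Δ'
  have hone := subset_zc (bV.prod bE) _ (one_mem' (ρ := ρ) (σ := σ) Δ')
  have hU : ∀ i, (s.U i : Set V) ⊆ DD (bV.prod bE) B A := by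
    intro i
    obtain ⟨a, ha, h⟩ := s.mem i
    rw [h]
    exact DD_blk (bV.prod bE) halt hAmul (vanish_DD bV bE halt hΔ'f) hnd hspan ha
  have hiso : ∀ t : End K V, (∀ x y, B (t x) (t y) = B x y) → (∀ i, ∀ x ∈ s.U i, t x ∈ s.U i) →
      lft E t ∈ zariskiClosure (bV.prod bE) A := fun t h1 h2 =>
    blocks_mem (bV.prod bE) halt hnd hAmul hone hU s.indep s.sup horth h1 h2
  -- the closures
  have hmono : zariskiClosure (bV.prod bE) A ⊆
      zariskiClosure (bV.prod bE) (onSum (images ρ σ Δ)) := by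
    refine zc_mono _ ?_
    rintro _ ⟨_, ⟨g, hg, rfl⟩, rfl⟩
    exact subset_zc _ _ (act_mem hg.1)
  rintro _ ⟨⟨x, y⟩, hp, rfl⟩
  apply hmono
  obtain ⟨c, hc0, hx, hy⟩ := h𝒢 _ hp
  -- `x` preserves the blocks
  have hcompl : ∀ i, IsCompl (s.U i) (⨆ j, ⨆ _ : j ≠ i, s.U j) := by
    intro i
    refine ⟨s.indep i, ?_⟩
    rw [codisjoint_iff, eq_top_iff, ← s.sup]
    refine iSup_le fun j => ?_
    by_cases hj : j = i
    · rw [hj]
      exact le_sup_left
    · exact le_sup_of_le_right (le_iSup₂_of_le j hj le_rfl)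
  have hxU : ∀ i, ∀ u ∈ s.U i, x u ∈ s.U i := by
    intro i u hu
    let f : End K V := (s.U i).subtype ∘ₗ prj (hcompl i)
    have h1 : ∀ g ∈ s.sub, f * ρ g = ρ g * f := by
      intro g hg
      apply LinearMap.ext
      intro v
      obtain ⟨v1, hv1, v2, hv2, rfl⟩ := exists_dec (hcompl i) v
      have h2 : ρ g v2 ∈ (⨆ j, ⨆ _ : j ≠ i, s.U j : Submodule K V) := by
        have h3 : (⨆ j, ⨆ _ : j ≠ i, s.U j : Submodule K V) ≤
            (⨆ j, ⨆ _ : j ≠ i, s.U j : Submodule K V).comap (ρ g) :=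
          iSup₂_le fun j hj z hz => Submodule.mem_comap.2
            ((le_iSup₂_of_le (f := fun j (_ : j ≠ i) => s.U j) j hj le_rfl)
              (s.stab g hg j z hz))
        exact h3 hv2
      have h4 : ∀ w ∈ s.U i, f w = w := fun w hw =>
        congrArg Subtype.val (prj_left (hcompl i) (⟨w, hw⟩ : s.U i))
      have h5 : ∀ w ∈ (⨆ j, ⨆ _ : j ≠ i, s.U j : Submodule K V), f w = 0 := fun w hw => by
        change ((prj (hcompl i) w : s.U i) : V) = 0
        rw [prj_right (hcompl i) hw, Submodule.coe_zero]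
      rw [Module.End.mul_apply, Module.End.mul_apply, map_add, map_add f, map_add f,
        h4 _ (s.stab g hg i v1 hv1), h4 _ hv1, h5 _ h2, h5 _ hv2, add_zero, add_zero]
    have h2 := hEnd f ⟨s.sub, s.fin, h1⟩ _ hp
    have h3 := LinearMap.congr_fun h2 u
    rw [Module.End.mul_apply, Module.End.mul_apply] at h3
    have h4 : f u = u := congrArg Subtype.val (prj_left (hcompl i) (⟨u, hu⟩ : s.U i))
    rw [h4] at h3
    change f (x u) = x u at h3
    rw [← h3]
    exact (prj (hcompl i) (x u)).2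
  obtain ⟨l, hl⟩ := IsAlgClosed.exists_pow_nat_eq c (n := 2) (by norm_num)
  have hl0 : l ≠ 0 := by
    rintro rfl
    apply hc0
    rw [← hl]
    norm_num
  set t : End K V := l⁻¹ • x with ht
  have htB : ∀ u v, B (t u) (t v) = B u v := by
    intro u v
    have hx' : B (x u) (x v) = c * B u v := hx u v
    rw [ht, LinearMap.smul_apply, LinearMap.smul_apply, map_smul, map_smul, LinearMap.smul_apply,
      hx', smul_eq_mul, smul_eq_mul, ← hl]
    field_simp
  have htU : ∀ i, ∀ u ∈ s.U i, t u ∈ s.U i := fun i u hu =>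
    Submodule.smul_mem _ _ (hxU i u hu)
  have hxt : x = l • t := by
    rw [ht, smul_smul, mul_inv_cancel₀ hl0, one_smul]
  -- a coefficient which is one on `e`
  obtain ⟨φ, hφ⟩ : ∃ φ : E →ₗ[K] K, φ e = 1 := by
    have h1 : bE.repr e ≠ 0 := fun h => he (by simpa using h)
    obtain ⟨k, hk⟩ := Finsupp.ne_iff.1 h1
    refine ⟨(bE.repr e k)⁻¹ • bE.coord k, ?_⟩
    rw [LinearMap.smul_apply, Basis.coord_apply, smul_eq_mul]
    exact inv_mul_cancel₀ hk
  intro p hpA
  obtain ⟨P, Q, hPQ⟩ := exists_parts bV bE p t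
  obtain ⟨P', hP'⟩ := exists_subst bE P φ e
  obtain ⟨Q', hQ'⟩ := exists_subst bE Q φ e
  -- both parts vanish on the subgroup
  have hboth : ∀ g ∈ Δ', ev bE P' (σ g) = 0 ∧ ev bE Q' (σ g) = 0 := by
    intro g hg
    obtain ⟨w, hw⟩ := IsAlgClosed.exists_pow_nat_eq (μ g) (n := 2) (by norm_num)
    have hw0 : w ≠ 0 := by
      rintro rfl
      apply hμ g
      rw [← hw]
      norm_num
    have hinv : ∀ v, ρ g (ρ g⁻¹ v) = v := fun v => by
      rw [← Module.End.mul_apply, ← map_mul, mul_inv_cancel, map_one]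
      rfl
    have hmem : ∀ z : K, z ^ 2 = μ g → ev (bV.prod bE) p ((z • t).prodMap (σ g)) = 0 := by
      intro z hz
      have h1 := hiso (z • (ρ g⁻¹ * t)) (fun u v => by
        have h2 := hB g (ρ g⁻¹ (t u)) (ρ g⁻¹ (t v))
        rw [hinv, hinv, htB] at h2
        rw [LinearMap.smul_apply, LinearMap.smul_apply, map_smul, map_smul, LinearMap.smul_apply,
          Module.End.mul_apply, Module.End.mul_apply, smul_eq_mul, smul_eq_mul, h2, ← hz]
        ring) (fun i u hu => Submodule.smul_mem _ _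
          (s.stab _ (s.sub.inv_mem hg.2) i _ (htU i u hu)))
      have h3 := zc_mul (bV.prod bE) hAmul
        (subset_zc (bV.prod bE) _ (act_mem (ρ := ρ) (σ := σ) hg)) h1
      have h4 : (ρ g).prodMap (σ g) * lft E (z • (ρ g⁻¹ * t)) = (z • t).prodMap (σ g) := by
        apply LinearMap.ext
        rintro ⟨u, v⟩
        apply Prod.ext
        · simp only [lft, Module.End.mul_apply, LinearMap.prodMap_apply, LinearMap.smul_apply,
            map_smul, hinv]
        · simp only [lft, Module.End.mul_apply, LinearMap.prodMap_apply, Module.End.one_apply]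
      rw [h4] at h3
      exact h3 p hpA
    have h1 := hmem w hw
    have h2 := hmem (-w) (by rw [neg_sq, hw])
    rw [hPQ] at h1 h2
    have hval : φ (σ g e) = μ g := by
      have h3 : σ g e = μ g • e := hμe g
      rw [h3, map_smul, hφ, smul_eq_mul, mul_one]
    rw [hP', hQ', hval]
    rw [hw] at h1
    rw [neg_sq, hw] at h2
    constructor
    · have h3 : 2 * MvPolynomial.eval (pt bE (μ g) (σ g)) P = 0 := by linear_combination h1 + h2
      exact (mul_eq_zero.1 h3).resolve_left two_ne_zero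
    · have h3 : 2 * w * MvPolynomial.eval (pt bE (μ g) (σ g)) Q = 0 := by
        linear_combination h1 - h2
      exact (mul_eq_zero.1 h3).resolve_left (mul_ne_zero two_ne_zero hw0)
  have hy1 := hE Δ' hΔ'f ⟨_, hp, rfl⟩
  have hP0 := hy1 P' (by
    rintro _ ⟨g, hg, rfl⟩
    exact (hboth g hg).1)
  have hQ0 := hy1 Q' (by
    rintro _ ⟨g, hg, rfl⟩
    exact (hboth g hg).2)
  have hval : φ (y e) = l ^ 2 := by
    have h3 : y e = c • e := hy
    rw [h3, map_smul, hφ, smul_eq_mul, mul_one, hl]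
  change ev (bV.prod bE) p (x.prodMap y) = 0
  rw [hxt, hPQ]
  have hP1 : MvPolynomial.eval (pt bE (l ^ 2) y) P = 0 := by rw [← hval, ← hP']; exact hP0
  have hQ1 : MvPolynomial.eval (pt bE (l ^ 2) y) Q = 0 := by rw [← hval, ← hQ']; exact hQ0
  rw [hP1, hQ1, mul_zero, add_zero]

/-- The restriction to the second factor. -/
theorem back_snd {Δ : Subgroup Γ}
    (h : onSum 𝒢 ⊆ zariskiClosure (bV.prod bE) (onSum (images ρ σ Δ))) :
    Prod.snd '' 𝒢 ⊆ zariskiClosure bE (σ '' Δ) := by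
  rintro _ ⟨⟨x, y⟩, hp, rfl⟩ p hpA
  have h1 : ∀ (x : End K V) (y : End K E), ev (bV.prod bE)
      (MvPolynomial.rename (fun ij : κ × κ => ((Sum.inr ij.1 : ι ⊕ κ), (Sum.inr ij.2 : ι ⊕ κ))) p)
      (x.prodMap y) = ev bE p y := by
    intro x y
    rw [ev, ev, MvPolynomial.eval_rename]
    congr 1
    congr 1
    funext ij
    simp
  have h2 := h ⟨_, hp, rfl⟩
    (MvPolynomial.rename (fun ij : κ × κ => ((Sum.inr ij.1 : ι ⊕ κ), (Sum.inr ij.2 : ι ⊕ κ))) p)
    (by
      rintro _ ⟨_, ⟨g, hg, rfl⟩, rfl⟩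
      rw [h1]
      exact hpA _ ⟨g, hg, rfl⟩)
  rwa [h1] at h2

/-- Endomorphisms. -/
theorem back_end {Δ : Subgroup Γ}
    (h : onSum 𝒢 ⊆ zariskiClosure (bV.prod bE) (onSum (images ρ σ Δ))) {f : End K V}
    (hf : ∀ g ∈ Δ, f * ρ g = ρ g * f) : ∀ p ∈ 𝒢, f * p.1 = p.1 * f := by
  rintro ⟨x, y⟩ hp
  apply LinearMap.ext
  intro v
  refine bV.repr.injective (Finsupp.ext fun i => ?_)
  have h1 : ∀ (x : End K V) (y : End K E),
      ev (bV.prod bE) (lp (bV.prod bE) (bV.coord i ∘ₗ f ∘ₗ LinearMap.fst K V E) (v, 0) -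
        lp (bV.prod bE) (bV.coord i ∘ₗ LinearMap.fst K V E) (f v, 0)) (x.prodMap y) =
      bV.repr (f (x v)) i - bV.repr (x (f v)) i := by
    intro x y
    have h2 := ev_lp (bV.prod bE) (bV.coord i ∘ₗ f ∘ₗ LinearMap.fst K V E) (v, 0) (x.prodMap y)
    have h3 := ev_lp (bV.prod bE) (bV.coord i ∘ₗ LinearMap.fst K V E) (f v, 0) (x.prodMap y)
    have h4 : ∀ p q : MvPolynomial ((ι ⊕ κ) × (ι ⊕ κ)) K,
        ev (bV.prod bE) (p - q) (x.prodMap y) =
          ev (bV.prod bE) p (x.prodMap y) - ev (bV.prod bE) q (x.prodMap y) := fun p q => by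
      simp only [ev, map_sub]
    rw [h4, h2, h3]
    rfl
  have h2 := h ⟨_, hp, rfl⟩ _ (by
    rintro _ ⟨_, ⟨g, hg, rfl⟩, rfl⟩
    rw [h1]
    have h3 := LinearMap.congr_fun (hf g hg) v
    rw [Module.End.mul_apply, Module.End.mul_apply] at h3
    rw [h3, sub_self])
  rw [h1] at h2
  exact sub_eq_zero.1 h2

end Pool.Agent.TH125.Mtg
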