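import Pool.Agent.TH125.Mtg.Clo

/-!
# The isometries which preserve the blocks are in the closure
-/

set_option linter.unusedSectionVars false

namespace Pool.Agent.TH125.Mtg

open Module Finset Function Pool.Agent.TH118.ZC Pool.Agent.TH125.Squ

section ext

variable {K : Type} [Field K] {V : Type} [AddCommGroup V] [Module K V]
  {U W : Submodule K V} (h : IsCompl U W)

/-- The projection to `U`. -/
noncomputable def prj (h : IsCompl U W) : V →ₗ[K] U := Submodule.projectionOnto U W h

theorem prj_left (x : U) : prj h (x : V) = x := Submodule.projectionOnto_apply_left h x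

theorem prj_right {x : V} (hx : x ∈ W) : prj h x = 0 :=
  Submodule.projectionOnto_apply_of_mem_right h hx

include h in
theorem exists_dec (x : V) : ∃ u ∈ U, ∃ w ∈ W, x = u + w := by
  have h1 : x ∈ U ⊔ W := by rw [h.sup_eq_top]; exact Submodule.mem_top
  obtain ⟨u, hu, w, hw, rfl⟩ := Submodule.mem_sup.1 h1
  exact ⟨u, hu, w, hw, rfl⟩

/-- The extension of an operator of `U` by the identity on `W`. -/
noncomputable def ext (h : IsCompl U W) (s : End K U) : End K V :=
  U.subtype ∘ₗ s ∘ₗ prj h + (1 - U.subtype ∘ₗ prj h)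

theorem ext_left (s : End K U) (x : U) : ext h s (x : V) = s x := by
  rw [ext, LinearMap.add_apply, LinearMap.comp_apply, LinearMap.comp_apply, LinearMap.sub_apply,
    LinearMap.comp_apply, prj_left, Module.End.one_apply, Submodule.subtype_apply,
    Submodule.subtype_apply, sub_self, add_zero]

theorem ext_right (s : End K U) {x : V} (hx : x ∈ W) : ext h s x = x := by
  rw [ext, LinearMap.add_apply, LinearMap.comp_apply, LinearMap.comp_apply, LinearMap.sub_apply,
    LinearMap.comp_apply, prj_right h hx, Module.End.one_apply, map_zero, map_zero, sub_zero,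
    zero_add]

theorem ext_mul (s t : End K U) : ext h (s * t) = ext h s * ext h t := by
  apply LinearMap.ext
  intro x
  obtain ⟨u, hu, w, hw, rfl⟩ := exists_dec h x
  rw [Module.End.mul_apply, map_add, map_add, map_add, ext_right h _ hw, ext_right h _ hw,
    ext_right h _ hw]
  congr 1
  rw [ext_left h _ (⟨u, hu⟩ : U), ext_left h _ (⟨u, hu⟩ : U), ext_left h, Module.End.mul_apply]

theorem ext_one : ext h (1 : End K U) = 1 := by
  apply LinearMap.ext
  intro x
  obtain ⟨u, hu, w, hw, rfl⟩ := exists_dec h x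
  rw [map_add, ext_right h _ hw, ext_left h _ (⟨u, hu⟩ : U)]
  rfl

end ext

section split

variable {K : Type} [Field K] [CharZero K] {V E : Type} [AddCommGroup V] [Module K V]
  [AddCommGroup E] [Module K E] [FiniteDimensional K V] {ι : Type} [Fintype ι]
  (b : Basis ι K (V × E)) {B : V →ₗ[K] V →ₗ[K] K} {A : Set (End K (V × E))}

theorem blocks_mem (halt : ∀ v, B v v = 0) (hnd : ∀ u, (∀ v, B u v = 0) → u = 0)
    (hA : ∀ x ∈ A, ∀ y ∈ A, x * y ∈ A) (hone : (1 : End K (V × E)) ∈ zariskiClosure b A)
    {r : ℕ} {U : Fin r → Submodule K V} (hU : ∀ i, (U i : Set V) ⊆ DD b B A)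
    (hind : iSupIndep U) (hsup : iSup U = ⊤)
    (horth : ∀ i j, i ≠ j → ∀ x ∈ U i, ∀ y ∈ U j, B x y = 0) {s : End K V}
    (hs : ∀ x y, B (s x) (s y) = B x y) (hsU : ∀ i, ∀ x ∈ U i, s x ∈ U i) :
    lft E s ∈ zariskiClosure b A := by
  classical
  have hc : ∀ i, IsCompl (U i) (⨆ j, ⨆ _ : j ≠ i, U j) := by
    intro i
    refine ⟨hind i, ?_⟩
    rw [codisjoint_iff, eq_top_iff, ← hsup]
    refine iSup_le fun j => ?_
    by_cases hj : j = i
    · rw [hj]
      exact le_sup_left
    · exact le_sup_of_le_right (le_iSup₂_of_le j hj le_rfl)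
  -- orthogonality
  have hort : ∀ i, ∀ x ∈ U i, ∀ y ∈ (⨆ j, ⨆ _ : j ≠ i, U j : Submodule K V), B x y = 0 := by
    intro i x hx y hy
    have h1 : (⨆ j, ⨆ _ : j ≠ i, U j : Submodule K V) ≤ LinearMap.ker (B x) :=
      iSup₂_le fun j hj z hz => horth i j (Ne.symm hj) x hx z hz
    exact h1 hy
  have hort' : ∀ i, ∀ x ∈ U i, ∀ y ∈ (⨆ j, ⨆ _ : j ≠ i, U j : Submodule K V), B y x = 0 := by
    intro i x hx y hy
    rw [skew halt, hort i x hx y hy, neg_zero]
  -- the transvections in a block
  have hext : ∀ i, ∀ m : End K (U i), (∀ x y, B (m x) (m y) = B x y) →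
      lft E (ext (hc i) m) ∈ zariskiClosure b A := by
    intro i m hm
    let Bi : U i →ₗ[K] U i →ₗ[K] K := B.compl₁₂ (U i).subtype (U i).subtype
    have hBi : ∀ x y : U i, Bi x y = B x y := fun x y => rfl
    have h1 : m ∈ TM Bi := by
      refine sp_le_TM (B := Bi) (fun v => halt v) (fun u hu => ?_) fun x y => hm x y
      apply Subtype.ext
      apply hnd
      intro v
      obtain ⟨w, hw, z, hz, rfl⟩ := exists_dec (hc i) v
      rw [map_add, hort i u u.2 z hz, add_zero]
      exact hu ⟨w, hw⟩
    rw [TM] at h1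
    clear hm
    induction h1 using Submonoid.closure_induction with
    | mem m hm =>
      obtain ⟨⟨u, t⟩, rfl⟩ := hm
      have h2 : ext (hc i) (tv Bi u t) = tv B (u : V) t := by
        apply LinearMap.ext
        intro x
        obtain ⟨w, hw, z, hz, rfl⟩ := exists_dec (hc i) x
        rw [map_add, map_add, ext_right _ _ hz, tv_apply B _ _ z, hort i u u.2 z hz, mul_zero,
          zero_smul, add_zero, ext_left _ _ (⟨w, hw⟩ : U i), tv_apply Bi, tv_apply B]
        rfl
      change lft E (ext (hc i) (tv Bi u t)) ∈ _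
      rw [h2]
      exact hU i u.2 t
    | one => rw [ext_one, lft_one]; exact hone
    | mul m m' _ _ h h' => rw [ext_mul, lft_mul]; exact zc_mul b hA h h'
  -- induction over the set of the blocks on which `s` is not trivial
  have key : ∀ F : Finset (Fin r), ∀ s : End K V, (∀ x y, B (s x) (s y) = B x y) →
      (∀ i, ∀ x ∈ U i, s x ∈ U i) → (∀ j, j ∉ F → ∀ x ∈ U j, s x = x) →
      lft E s ∈ zariskiClosure b A := by
    intro F
    induction F using Finset.induction_on with
    | empty =>
      intro s _ _ h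
      have h1 : s = 1 := by
        apply LinearMap.ext
        intro x
        have hx : x ∈ iSup U := by rw [hsup]; exact Submodule.mem_top
        have h2 : iSup U ≤ LinearMap.ker (s - 1) := iSup_le fun i y hy => by
          rw [LinearMap.mem_ker, LinearMap.sub_apply, Module.End.one_apply,
            h i (Finset.notMem_empty i) y hy, sub_self]
        have h3 := h2 hx
        rwa [LinearMap.mem_ker, LinearMap.sub_apply, Module.End.one_apply, sub_eq_zero] at h3
      rw [h1, lft_one]
      exact hone
    | insert i F _ ih =>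
      intro s hs hsU hF
      have hsW : ∀ y ∈ (⨆ j, ⨆ _ : j ≠ i, U j : Submodule K V),
          s y ∈ (⨆ j, ⨆ _ : j ≠ i, U j : Submodule K V) := by
        intro y hy
        have h1 : (⨆ j, ⨆ _ : j ≠ i, U j : Submodule K V) ≤
            (⨆ j, ⨆ _ : j ≠ i, U j : Submodule K V).comap s :=
          iSup₂_le fun j hj z hz => Submodule.mem_comap.2
            ((le_iSup₂_of_le (f := fun j (_ : j ≠ i) => U j) j hj le_rfl) (hsU j z hz))
        exact h1 hy
      let π := prj (hc i)
      let m : End K (U i) := s.restrict (hsU i)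
      let s' : End K V := s ∘ₗ (1 - (U i).subtype ∘ₗ π) + (U i).subtype ∘ₗ π
      have hs'1 : ∀ x ∈ U i, s' x = x := by
        intro x hx
        have h1 : π x = (⟨x, hx⟩ : U i) := prj_left (hc i) (⟨x, hx⟩ : U i)
        change s (x - (π x : V)) + (π x : V) = x
        rw [h1, sub_self, map_zero, zero_add]
      have hs'2 : ∀ x ∈ (⨆ j, ⨆ _ : j ≠ i, U j : Submodule K V), s' x = s x := by
        intro x hx
        have h1 : π x = 0 := prj_right (hc i) hx
        change s (x - (π x : V)) + (π x : V) = s x
        rw [h1, Submodule.coe_zero, sub_zero, add_zero]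
      have h1 : s = ext (hc i) m * s' := by
        apply LinearMap.ext
        intro x
        obtain ⟨w, hw, z, hz, rfl⟩ := exists_dec (hc i) x
        rw [Module.End.mul_apply, map_add s', hs'1 w hw, hs'2 z hz, map_add, map_add,
          ext_right _ _ (hsW z hz), ext_left _ _ (⟨w, hw⟩ : U i)]
        rfl
      rw [h1, lft_mul]
      refine zc_mul b hA (hext i m fun x y => hs x y) (ih s' ?_ ?_ ?_)
      · intro x y
        obtain ⟨x1, hx1, x2, hx2, rfl⟩ := exists_dec (hc i) x
        obtain ⟨y1, hy1, y2, hy2, rfl⟩ := exists_dec (hc i) y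
        rw [map_add s', map_add s', hs'1 x1 hx1, hs'1 y1 hy1, hs'2 x2 hx2, hs'2 y2 hy2]
        simp only [map_add, LinearMap.add_apply]
        rw [hs, hort i x1 hx1 (s y2) (hsW y2 hy2), hort' i y1 hy1 (s x2) (hsW x2 hx2),
          hort i x1 hx1 y2 hy2, hort' i y1 hy1 x2 hx2]
      · intro j x hx
        by_cases hj : j = i
        · subst hj
          rw [hs'1 x hx]
          exact hx
        · rw [hs'2 x ((le_iSup₂_of_le (f := fun j (_ : j ≠ i) => U j) j hj le_rfl) hx)]
          exact hsU j x hx
      · intro j hj x hx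
        by_cases hji : j = i
        · subst hji
          exact hs'1 x hx
        · rw [hs'2 x ((le_iSup₂_of_le (f := fun j (_ : j ≠ i) => U j) j hji le_rfl) hx)]
          exact hF j (fun h => (Finset.mem_insert.1 h).elim hji hj) x hx
  exact key Finset.univ s hs hsU fun j hj => absurd (Finset.mem_univ j) hj

end split

section parts

variable {K : Type} [Field K] {V E : Type} [AddCommGroup V] [Module K V]
  [AddCommGroup E] [Module K E] {ι κ : Type} [Fintype ι] [Fintype κ]
  (bV : Basis ι K V) (bE : Basis κ K E)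

/-- The entries of `y` and an additional variable. -/
noncomputable def pt (bE : Basis κ K E) (c : K) (y : End K E) : Option (κ × κ) → K :=
  fun o => o.elim c fun ij => bE.repr (y (bE ij.2)) ij.1

/-- Even and odd part. -/
theorem exists_parts (p : MvPolynomial ((ι ⊕ κ) × (ι ⊕ κ)) K) (s : End K V) :
    ∃ P Q : MvPolynomial (Option (κ × κ)) K, ∀ (l : K) (y : End K E),
      ev (bV.prod bE) p ((l • s).prodMap y) =
        MvPolynomial.eval (pt bE (l ^ 2) y) P + l * MvPolynomial.eval (pt bE (l ^ 2) y) Q := by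
  induction p using MvPolynomial.induction_on with
  | C a => exact ⟨MvPolynomial.C a, 0, fun l y => by rw [ev_C, MvPolynomial.eval_C]; simp⟩
  | add p p' hp hp' =>
    obtain ⟨P, Q, h⟩ := hp
    obtain ⟨P', Q', h'⟩ := hp'
    refine ⟨P + P', Q + Q', fun l y => ?_⟩
    rw [ev_add, h, h', map_add, map_add]
    ring
  | mul_X p ij hp =>
    obtain ⟨P, Q, h⟩ := hp
    obtain ⟨i, j⟩ := ij
    rcases i with i | i <;> rcases j with j | j
    · refine ⟨Q * MvPolynomial.X none * MvPolynomial.C (bV.repr (s (bV j)) i),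
        P * MvPolynomial.C (bV.repr (s (bV j)) i), fun l y => ?_⟩
      have h1 : (bV.prod bE).repr (((l • s).prodMap y) ((bV.prod bE) (Sum.inl j))) (Sum.inl i) =
          l * bV.repr (s (bV j)) i := by
        simp
      rw [ev_mul, ev_X, h, h1]
      simp only [map_mul, MvPolynomial.eval_X, MvPolynomial.eval_C, pt, Option.elim_none]
      ring
    · refine ⟨0, 0, fun l y => ?_⟩
      have h1 : (bV.prod bE).repr (((l • s).prodMap y) ((bV.prod bE) (Sum.inr j))) (Sum.inl i) =
          0 := by
        simp
      rw [ev_mul, ev_X, h, h1]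
      simp
    · refine ⟨0, 0, fun l y => ?_⟩
      have h1 : (bV.prod bE).repr (((l • s).prodMap y) ((bV.prod bE) (Sum.inl j))) (Sum.inr i) =
          0 := by
        simp
      rw [ev_mul, ev_X, h, h1]
      simp
    · refine ⟨P * MvPolynomial.X (some (i, j)), Q * MvPolynomial.X (some (i, j)),
        fun l y => ?_⟩
      have h1 : (bV.prod bE).repr (((l • s).prodMap y) ((bV.prod bE) (Sum.inr j))) (Sum.inr i) =
          bE.repr (y (bE j)) i := by
        simp
      rw [ev_mul, ev_X, h, h1]
      simp only [map_mul, MvPolynomial.eval_X, pt, Option.elim_some]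
      ring

/-- Substitution of a coefficient. -/
theorem exists_subst (P : MvPolynomial (Option (κ × κ)) K) (φ : E →ₗ[K] K) (e : E) :
    ∃ q : MvPolynomial (κ × κ) K, ∀ y : End K E,
      ev bE q y = MvPolynomial.eval (pt bE (φ (y e)) y) P := by
  induction P using MvPolynomial.induction_on with
  | C a => exact ⟨MvPolynomial.C a, fun y => by rw [ev_C, MvPolynomial.eval_C]⟩
  | add p p' hp hp' =>
    obtain ⟨q, hq⟩ := hp
    obtain ⟨q', hq'⟩ := hp'
    exact ⟨q + q', fun y => by rw [ev_add, hq, hq', map_add]⟩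
  | mul_X p o hp =>
    obtain ⟨q, hq⟩ := hp
    rcases o with _ | ij
    · refine ⟨q * lp bE φ e, fun y => ?_⟩
      rw [ev_mul, hq, ev_lp, map_mul, MvPolynomial.eval_X]
      rfl
    · refine ⟨q * MvPolynomial.X ij, fun y => ?_⟩
      rw [ev_mul, hq, ev_X, map_mul, MvPolynomial.eval_X]
      rfl

end parts

end Pool.Agent.TH125.Mtg
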