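import Pool.Agent.TH118.ZC.Gen
import Pool.Agent.TH125.Squ.Alg

/-!
# Zariski closures (after `Pool.Agent.TH118.ZC.Index`)
-/

set_option linter.unusedSectionVars false

namespace Pool.Agent.TH125.Mtg

open Module Finset Function Pool.Agent.TH118.ZC

/-- The value at `x` of a polynomial in the entries of matrices with respect to the basis `b`. -/
noncomputable def ev {K : Type} [Field K] {T : Type} [AddCommGroup T] [Module K T] {ι : Type}
    (b : Basis ι K T) (p : MvPolynomial (ι × ι) K) (x : End K T) : K :=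
  MvPolynomial.eval (fun ij => b.repr (x (b ij.2)) ij.1) p

/-- The Zariski closure in the space of all endomorphisms: the endomorphisms which satisfy all
polynomial equations (in the matrix entries) that hold on the set `A`. -/
def zariskiClosure {K : Type} [Field K] {T : Type} [AddCommGroup T] [Module K T] {ι : Type}
    (b : Basis ι K T) (A : Set (End K T)) : Set (End K T) :=
  {x | ∀ p : MvPolynomial (ι × ι) K, (∀ y ∈ A, ev b p y = 0) → ev b p x = 0}

variable {K : Type} [Field K] {T : Type} [AddCommGroup T] [Module K T] {ι : Type}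
  (b : Basis ι K T)

theorem ev_add (p q : MvPolynomial (ι × ι) K) (x : End K T) :
    ev b (p + q) x = ev b p x + ev b q x := by
  simp only [ev, map_add]

theorem ev_mul (p q : MvPolynomial (ι × ι) K) (x : End K T) :
    ev b (p * q) x = ev b p x * ev b q x := by
  simp only [ev, map_mul]

theorem ev_C (a : K) (x : End K T) : ev b (MvPolynomial.C a) x = a := by
  rw [ev, MvPolynomial.eval_C]

theorem ev_X (ij : ι × ι) (x : End K T) :
    ev b (MvPolynomial.X ij) x = b.repr (x (b ij.2)) ij.1 := by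
  rw [ev, MvPolynomial.eval_X]

theorem ev_sum {α : Type} (s : Finset α) (p : α → MvPolynomial (ι × ι) K) (x : End K T) :
    ev b (∑ i ∈ s, p i) x = ∑ i ∈ s, ev b (p i) x := by
  simp only [ev, map_sum]

theorem ev_prod {α : Type} (s : Finset α) (p : α → MvPolynomial (ι × ι) K) (x : End K T) :
    ev b (∏ i ∈ s, p i) x = ∏ i ∈ s, ev b (p i) x := by
  simp only [ev, map_prod]

section

variable [Fintype ι]

/-- The function `x ↦ l (x v)` is a polynomial. -/
noncomputable def lp (l : T →ₗ[K] K) (v : T) : MvPolynomial (ι × ι) K :=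
  ∑ i, ∑ k, MvPolynomial.C (l (b i) * b.repr v k) * MvPolynomial.X (i, k)

theorem ev_lp (l : T →ₗ[K] K) (v : T) (x : End K T) : ev b (lp b l v) x = l (x v) := by
  have h1 : x v = ∑ k, b.repr v k • x (b k) := by
    conv_lhs => rw [← b.sum_repr v]
    rw [map_sum]
    refine Finset.sum_congr rfl fun k _ => ?_
    rw [map_smul]
  have h2 : ∀ k, l (x (b k)) = ∑ i, b.repr (x (b k)) i * l (b i) := by
    intro k
    conv_lhs => rw [← b.sum_repr (x (b k))]
    rw [map_sum]
    refine Finset.sum_congr rfl fun i _ => ?_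
    rw [map_smul, smul_eq_mul]
  have h3 : ∀ i, ev b (∑ k, MvPolynomial.C (l (b i) * b.repr v k) *
      MvPolynomial.X (i, k)) x = ∑ k, b.repr v k * (b.repr (x (b k)) i * l (b i)) := by
    intro i
    rw [ev_sum]
    refine Finset.sum_congr rfl fun k _ => ?_
    rw [ev_mul, ev_C, ev_X]
    ring
  rw [lp, ev_sum, h1, map_sum, Finset.sum_congr rfl fun i _ => h3 i, Finset.sum_comm]
  refine Finset.sum_congr rfl fun k _ => ?_
  rw [map_smul, h2, smul_eq_mul, Finset.mul_sum]

/-- Left translations. -/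
theorem exists_left (p : MvPolynomial (ι × ι) K) (y : End K T) :
    ∃ q : MvPolynomial (ι × ι) K, ∀ x, ev b q x = ev b p (y * x) := by
  induction p using MvPolynomial.induction_on with
  | C a => exact ⟨MvPolynomial.C a, fun x => by rw [ev_C, ev_C]⟩
  | add p p' hp hp' =>
    obtain ⟨q, hq⟩ := hp
    obtain ⟨q', hq'⟩ := hp'
    exact ⟨q + q', fun x => by rw [ev_add, ev_add, hq, hq']⟩
  | mul_X p ij hp =>
    obtain ⟨q, hq⟩ := hp
    refine ⟨q * lp b ((b.coord ij.1).comp y) (b ij.2), fun x => ?_⟩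
    rw [ev_mul, ev_mul, hq, ev_lp, ev_X]
    rfl

/-- Right translations. -/
theorem exists_right (p : MvPolynomial (ι × ι) K) (y : End K T) :
    ∃ q : MvPolynomial (ι × ι) K, ∀ x, ev b q x = ev b p (x * y) := by
  induction p using MvPolynomial.induction_on with
  | C a => exact ⟨MvPolynomial.C a, fun x => by rw [ev_C, ev_C]⟩
  | add p p' hp hp' =>
    obtain ⟨q, hq⟩ := hp
    obtain ⟨q', hq'⟩ := hp'
    exact ⟨q + q', fun x => by rw [ev_add, ev_add, hq, hq']⟩
  | mul_X p ij hp =>
    obtain ⟨q, hq⟩ := hp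
    refine ⟨q * lp b (b.coord ij.1) (y (b ij.2)), fun x => ?_⟩
    rw [ev_mul, ev_mul, hq, ev_lp, ev_X]
    rfl

theorem zc_mono {A A' : Set (End K T)} (h : A ⊆ zariskiClosure b A') :
    zariskiClosure b A ⊆ zariskiClosure b A' :=
  fun _ hx p hp => hx p fun _ hy => h hy p hp

theorem subset_zc (A : Set (End K T)) : A ⊆ zariskiClosure b A := fun _ hx _ hp => hp _ hx

/-- The closure of a multiplicative set is closed under multiplication. -/
theorem zc_mul {A : Set (End K T)} (hA : ∀ x ∈ A, ∀ y ∈ A, x * y ∈ A) {x y : End K T}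
    (hx : x ∈ zariskiClosure b A) (hy : y ∈ zariskiClosure b A) : x * y ∈ zariskiClosure b A := by
  have h1 : ∀ a ∈ A, a * y ∈ zariskiClosure b A := by
    intro a ha p hp
    obtain ⟨q, hq⟩ := exists_left b p a
    rw [← hq]
    exact hy q fun z hz => by
      rw [hq]
      exact hp _ (hA a ha z hz)
  intro p hp
  obtain ⟨q, hq⟩ := exists_right b p y
  rw [← hq]
  refine hx q fun a ha => ?_
  rw [hq]
  exact h1 a ha p hp

variable {G : Type} [Group G] {ρ : G →* (T →ₗ[K] T)}

theorem zc_pow {Δ : Subgroup G} {x : End K T} (hx : x ∈ zariskiClosure b (ρ '' Δ)) (n : ℕ) :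
    x ^ n ∈ zariskiClosure b (ρ '' Δ) := by
  induction n with
  | zero =>
    rw [pow_zero]
    exact subset_zc b _ ⟨1, Δ.one_mem, map_one ρ⟩
  | succ n ih =>
    rw [pow_succ]
    refine zc_mul b ?_ ih hx
    rintro _ ⟨g, hg, rfl⟩ _ ⟨g', hg', rfl⟩
    exact ⟨g * g', Δ.mul_mem hg hg', map_mul ρ g g'⟩

/-- An element of the closure of the group is in a coset of the closure of the subgroup. -/
theorem exists_coset {Δ : Subgroup G} (hΔ : Δ.FiniteIndex) {x : End K T}
    (hx : x ∈ zariskiClosure b (Set.range ρ)) :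
    ∃ q : G ⧸ Δ, ρ (Quotient.out q)⁻¹ * x ∈ zariskiClosure b (ρ '' Δ) := by
  classical
  have := hΔ
  have : Fintype (G ⧸ Δ) := Subgroup.fintypeQuotientOfFiniteIndex
  by_contra hcon
  push Not at hcon
  have h1 : ∀ q : G ⧸ Δ, ∃ p : MvPolynomial (ι × ι) K, (∀ g, g ∈ Δ →
      ev b p (ρ (Quotient.out q * g)) = 0) ∧ ev b p x ≠ 0 := by
    intro q
    have h2 := hcon q
    rw [zariskiClosure, Set.mem_ofPred_eq] at h2
    push Not at h2
    obtain ⟨p, hp, hpx⟩ := h2
    obtain ⟨p', hp'⟩ := exists_left b p (ρ (Quotient.out q)⁻¹)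
    refine ⟨p', fun g hg => ?_, ?_⟩
    · rw [hp', ← map_mul, inv_mul_cancel_left]
      exact hp _ ⟨g, hg, rfl⟩
    · rw [hp']
      exact hpx
  choose p hp hpx using h1
  have h2 := hx (∏ q, p q) (by
    rintro _ ⟨g, rfl⟩
    rw [ev_prod]
    refine Finset.prod_eq_zero (Finset.mem_univ (g : G ⧸ Δ)) ?_
    have h3 := hp (g : G ⧸ Δ) ((Quotient.out (g : G ⧸ Δ))⁻¹ * g)
      (QuotientGroup.leftRel_apply.1 (Quotient.exact (Quotient.out_eq (g : G ⧸ Δ))))
    rwa [mul_inv_cancel_left] at h3)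
  rw [ev_prod] at h2
  obtain ⟨q, -, hq⟩ := Finset.prod_eq_zero_iff.1 h2
  exact hpx q hq

variable [CharZero K]

/-- The restriction of a polynomial to a line. -/
theorem exists_line (p : MvPolynomial (ι × ι) K) (x y : End K T) :
    ∃ q : Polynomial K, ∀ t : K, q.eval t = ev b p (x + t • y) := by
  induction p using MvPolynomial.induction_on with
  | C a => exact ⟨Polynomial.C a, fun t => by rw [ev_C, Polynomial.eval_C]⟩
  | add p p' hp hp' =>
    obtain ⟨q, hq⟩ := hp
    obtain ⟨q', hq'⟩ := hp'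
    exact ⟨q + q', fun t => by rw [ev_add, Polynomial.eval_add, hq, hq']⟩
  | mul_X p ij hp =>
    obtain ⟨q, hq⟩ := hp
    refine ⟨q * (Polynomial.C (b.repr (x (b ij.2)) ij.1) +
      Polynomial.C (b.repr (y (b ij.2)) ij.1) * Polynomial.X), fun t => ?_⟩
    rw [ev_mul, ev_X, Polynomial.eval_mul, Polynomial.eval_add, Polynomial.eval_mul,
      Polynomial.eval_C, Polynomial.eval_C, Polynomial.eval_X, hq, LinearMap.add_apply,
      LinearMap.smul_apply, map_add, map_smul, Finsupp.add_apply, Finsupp.smul_apply, smul_eq_mul]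
    ring

/-- Lines which meet the closure infinitely often are contained in it. -/
theorem line_subset {A : Set (End K T)} {x y : End K T} {S : Set K} (hS : S.Infinite)
    (h : ∀ t ∈ S, x + t • y ∈ zariskiClosure b A) (t : K) : x + t • y ∈ zariskiClosure b A := by
  intro p hp
  obtain ⟨q, hq⟩ := exists_line b p x y
  have h1 : q = 0 := by
    refine Polynomial.eq_zero_of_infinite_isRoot q (hS.mono fun t ht => ?_)
    change q.eval t = 0
    rw [hq]
    exact h t ht p hp
  rw [← hq, h1, Polynomial.eval_zero]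

/-- **One-parameter groups in the closure are in the closure of the subgroups of finite index.** -/
theorem line_index {Δ : Subgroup G} (hΔ : Δ.FiniteIndex) {N : End K T}
    (h : ∀ t : K, 1 + t • N ∈ zariskiClosure b (Set.range ρ)) (t : K) :
    1 + t • N ∈ zariskiClosure b (ρ '' Δ) := by
  classical
  have := hΔ
  have : Fintype (G ⧸ Δ) := Subgroup.fintypeQuotientOfFiniteIndex
  choose q hq using fun t => exists_coset b hΔ (h t)
  obtain ⟨q₀, hq₀⟩ := Finite.exists_infinite_fiber q
  have h1 : (q ⁻¹' {q₀}).Infinite := Set.infinite_coe_iff.1 hq₀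
  set g := Quotient.out q₀ with hg
  have h2 : ∀ t : K, ρ g⁻¹ + t • (ρ g⁻¹ * N) ∈ zariskiClosure b (ρ '' Δ) := by
    refine line_subset b h1 fun t ht => ?_
    have h3 := hq t
    have h4 : q t = q₀ := ht
    rw [h4, mul_add, mul_one, mul_smul_comm] at h3
    exact h3
  have h3 := h2 0
  rw [zero_smul, add_zero] at h3
  obtain ⟨n, hn, hgn⟩ := Pool.Agent.TH125.Gal.exists_pow hΔ g
  have h4 : ρ g ∈ zariskiClosure b (ρ '' Δ) := by
    have h5 := zc_pow b h3 (n - 1)
    have h6 : ρ g = ρ (g ^ n) * ρ g⁻¹ ^ (n - 1) := by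
      rw [← map_pow, ← map_mul, inv_pow]
      congr 1
      obtain ⟨m, rfl⟩ : ∃ m, n = m + 1 := ⟨n - 1, by omega⟩
      rw [Nat.add_sub_cancel, pow_succ']
      group
    rw [h6]
    refine zc_mul b ?_ (subset_zc b _ ⟨_, hgn, rfl⟩) h5
    rintro _ ⟨g, hg, rfl⟩ _ ⟨g', hg', rfl⟩
    exact ⟨g * g', Δ.mul_mem hg hg', map_mul ρ g g'⟩
  have h5 := h2 t
  have h6 : 1 + t • N = ρ g * (ρ g⁻¹ + t • (ρ g⁻¹ * N)) := by
    rw [mul_add, ← map_mul, mul_inv_cancel, map_one, mul_smul_comm, ← mul_assoc, ← map_mul,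
      mul_inv_cancel, map_one, one_mul]
  rw [h6]
  refine zc_mul b ?_ h4 h5
  rintro _ ⟨g, hg, rfl⟩ _ ⟨g', hg', rfl⟩
  exact ⟨g * g', Δ.mul_mem hg hg', map_mul ρ g g'⟩

end

end Pool.Agent.TH125.Mtg
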